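import Pool.Agent.N939.ME.Stm

set_option autoImplicit false

/-! ME3: the truncated adjoint operator on functions with values in `[0,1]` (helper901). -/

namespace Pool.Agent.N901.ME

open MeasureTheory ProbabilityTheory Filter Topology
open Pool.Agent.N939.ME

theorem bk2 (hTT : S_TT) (hBK1 : S_BK1) : S_BK2 := by
  intro S _ Q _ ν _ hν
  obtain ⟨t1, t2, t3, t4, t5, t6⟩ := hTT S Q ν hν
  obtain ⟨b1, b2, b3, b4, b5, b6, b7, b8, b9⟩ := hBK1 S Q ν hν
  have hb2 : ∀ a : S → ℝ, Measurable a → (∀ x, 0 ≤ a x ∧ a x ≤ 1) → MemLp a 2 ν := by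
    intro a ha h01
    refine MemLp.of_bound ha.aestronglyMeasurable 1 (Eventually.of_forall fun x => ?_)
    rw [Real.norm_of_nonneg (h01 x).1]
    exact (h01 x).2
  have hz : bk Q ν (fun _ => (0:ℝ)) =ᵐ[ν] fun _ => (0:ℝ) := by
    have h := b7 (fun _ => 0) 0 (hb2 _ measurable_const fun x => by norm_num)
    simpa only [zero_mul] using h
  have ho : bk Q ν (fun _ => (1:ℝ)) =ᵐ[ν] fun _ => (1:ℝ) := by
    have h1 : MemLp (fun _ : S => (1:ℝ)) 2 ν := hb2 _ measurable_const fun x => by norm_num
    refine b3 (fun _ => 1) _ _ (b1 _ h1) ⟨measurable_const, h1, fun g hg hg2 => ?_⟩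
    have h := (t2 g (hg2.integrable (by norm_num))).2.1
    simp only [one_mul]
    exact h.symm
  have p1 : ∀ a : S → ℝ, Measurable a → (∀ x, 0 ≤ a x ∧ a x ≤ 1) → bk01 Q ν a =ᵐ[ν] bk Q ν a := by
    intro a ha h01
    have h0 := b9 (fun _ => 0) a (hb2 _ measurable_const fun x => by norm_num) (hb2 a ha h01)
      (Eventually.of_forall fun x => (h01 x).1)
    have h1 := b9 a (fun _ => 1) (hb2 a ha h01) (hb2 _ measurable_const fun x => by norm_num)
      (Eventually.of_forall fun x => (h01 x).2)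
    filter_upwards [h0, h1, hz, ho] with x g0 g1 gz go
    rw [gz] at g0
    rw [go] at g1
    show max 0 (min 1 (bk Q ν a x)) = bk Q ν a x
    rw [min_eq_right g1, max_eq_right g0]
  have m01 : ∀ a : S → ℝ, Measurable (bk01 Q ν a) := fun a =>
    measurable_const.max (measurable_const.min (b2 a))
  have l01 : ∀ (a : S → ℝ) (x : S), 0 ≤ bk01 Q ν a x ∧ bk01 Q ν a x ≤ 1 := fun a x =>
    ⟨le_max_left _ _, max_le zero_le_one (min_le_left _ _)⟩
  have p2' : ∀ a g : S → ℝ, Measurable a → (∀ x, 0 ≤ a x ∧ a x ≤ 1) → Measurable g → Integrable g ν →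
      ∫ x, bk01 Q ν a x * g x ∂ν = ∫ x, a x * TT Q g x ∂ν := by
    intro a g ha h01 hg hgi
    set gn : ℕ → S → ℝ := fun n x => max (-(n:ℝ)) (min n (g x)) with hgn
    have hgnm : ∀ n, Measurable (gn n) := fun n => measurable_const.max (measurable_const.min hg)
    have hgnb : ∀ n x, |gn n x| ≤ n := by
      intro n x
      have hn : (0:ℝ) ≤ n := n.cast_nonneg
      refine abs_le.mpr ⟨le_max_left _ _, max_le (by linarith) (min_le_left _ _)⟩
    have hgng : ∀ n x, |gn n x| ≤ |g x| := by
      intro n x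
      have hn : (0:ℝ) ≤ n := n.cast_nonneg
      refine abs_le.mpr ⟨?_, ?_⟩
      · refine le_max_of_le_right (le_min ?_ (neg_abs_le _))
        have := abs_nonneg (g x); linarith
      · refine max_le ?_ ((min_le_right _ _).trans (le_abs_self _))
        have := abs_nonneg (g x); linarith
    have hgnt : ∀ x, Tendsto (fun n => gn n x) atTop (𝓝 (g x)) := by
      intro x
      refine tendsto_const_nhds.congr' ?_
      filter_upwards [eventually_ge_atTop ⌈|g x|⌉₊] with n hn
      have h1 : |g x| ≤ n := (Nat.le_ceil _).trans (by exact_mod_cast hn)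
      have h2 := abs_le.mp h1
      show g x = max (-(n:ℝ)) (min n (g x))
      rw [min_eq_right h2.2, max_eq_right h2.1]
    have hgn2 : ∀ n, MemLp (gn n) 2 ν := fun n =>
      MemLp.of_bound (hgnm n).aestronglyMeasurable n (Eventually.of_forall fun x => by
        rw [Real.norm_eq_abs]; exact hgnb n x)
    have hgi' : Integrable (fun x => |g x|) ν := hgi.abs
    have heq : ∀ n, ∫ x, bk01 Q ν a x * gn n x ∂ν = ∫ x, a x * TT Q (gn n) x ∂ν := by
      intro n
      rw [← (b1 a (hb2 a ha h01)).2.2 (gn n) (hgnm n) (hgn2 n)]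
      refine integral_congr_ae ?_
      filter_upwards [p1 a ha h01] with x hx
      rw [hx]
    have lim1 : Tendsto (fun n => ∫ x, bk01 Q ν a x * gn n x ∂ν) atTop (𝓝 (∫ x, bk01 Q ν a x * g x ∂ν)) := by
      refine tendsto_integral_of_dominated_convergence (fun x => |g x|)
        (fun n => ((m01 a).mul (hgnm n)).aestronglyMeasurable) hgi' (fun n => Eventually.of_forall fun x => ?_)
        (Eventually.of_forall fun x => (hgnt x).const_mul _)
      rw [Real.norm_eq_abs, abs_mul, abs_of_nonneg (l01 a x).1]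
      exact (mul_le_of_le_one_left (abs_nonneg _) (l01 a x).2).trans (hgng n x)
    obtain ⟨q1, q2, q3, q4⟩ := t2 g hgi
    have lim2 : Tendsto (fun n => ∫ x, a x * TT Q (gn n) x ∂ν) atTop (𝓝 (∫ x, a x * TT Q g x ∂ν)) := by
      refine tendsto_integral_of_dominated_convergence (TT Q (fun x => |g x|))
        (fun n => (ha.mul (t1 _ (hgnm n))).aestronglyMeasurable) (t2 _ hgi').1 (fun n => ?_) ?_
      · filter_upwards [q3] with x hx
        rw [Real.norm_eq_abs, abs_mul, abs_of_nonneg (h01 x).1]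
        refine (mul_le_of_le_one_left (abs_nonneg _) (h01 x).2).trans ?_
        show |∫ y, gn n y ∂(Q x)| ≤ ∫ y, |g y| ∂(Q x)
        rw [← Real.norm_eq_abs]
        exact norm_integral_le_of_norm_le hx.abs (Eventually.of_forall fun y => by
          rw [Real.norm_eq_abs]; exact hgng n y)
      · filter_upwards [q3] with x hx
        refine Tendsto.const_mul _ ?_
        show Tendsto (fun n => ∫ y, gn n y ∂(Q x)) atTop (𝓝 (∫ y, g y ∂(Q x)))
        exact tendsto_integral_of_dominated_convergence (fun y => |g y|)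
          (fun n => (hgnm n).aestronglyMeasurable) hx.abs (fun n => Eventually.of_forall fun y => by
            rw [Real.norm_eq_abs]; exact hgng n y) (Eventually.of_forall hgnt)
    exact tendsto_nhds_unique lim1 (lim2.congr fun n => (heq n).symm)
  have p2 : ∀ a g : S → ℝ, Measurable a → (∀ x, 0 ≤ a x ∧ a x ≤ 1) → Integrable g ν →
      ∫ x, bk01 Q ν a x * g x ∂ν = ∫ x, a x * TT Q g x ∂ν := by
    intro a g ha h01 hgi
    obtain ⟨g', hg', hgg'⟩ := hgi.aemeasurable
    have h1 := p2' a g' ha h01 hg' (hgi.congr hgg')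
    have h2 := t4 g g' hgg'
    rw [show ∫ x, bk01 Q ν a x * g x ∂ν = ∫ x, bk01 Q ν a x * g' x ∂ν from integral_congr_ae (by
      filter_upwards [hgg'] with x hx; rw [hx]), h1]
    refine integral_congr_ae ?_
    filter_upwards [h2] with x hx
    rw [hx]
  have p3 : ∀ (y : S → ℝ) (t : ℕ), Measurable y → (∀ x, 0 ≤ y x ∧ y x ≤ 1) →
      Measurable (yk Q ν y t) ∧ ∀ x, 0 ≤ yk Q ν y t x ∧ yk Q ν y t x ≤ 1 := by
    intro y t hy h01
    induction t with
    | zero => exact ⟨hy, h01⟩
    | succ t ih =>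
      have e1 : yk Q ν y (t + 1) = bk01 Q ν (yk Q ν y t) := Function.iterate_succ_apply' _ _ _
      rw [e1]
      exact ⟨m01 _, l01 _⟩
  refine ⟨p1, p2, p3, ?_⟩
  intro y g t hy h01
  induction t generalizing g with
  | zero => intro _; rfl
  | succ t ih =>
    intro hg
    have e1 : yk Q ν y (t + 1) = bk01 Q ν (yk Q ν y t) := Function.iterate_succ_apply' _ _ _
    rw [e1, p2 (yk Q ν y t) g (p3 y t hy h01).1 (p3 y t hy h01).2 hg, ih (TT Q g) (t2 g hg).1,
      Function.iterate_succ_apply]

end Pool.Agent.N901.ME
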